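import Pool.Agent.Helper78.KX.Defs2
import Pool.Agent.Helper18.GP.DiscL

/-!
# KX block X5'': the discrepancy of multiples of a geometric progression, all orders
-/

set_option autoImplicit false

namespace Pool.Agent.Helper89.KX

open Finset MeasureTheory Set Filter Topology Pool.Agent.Helper18.GP Pool.Agent.Helper82.FK Pool.Agent.Helper78.KX
open Pool.Agent.Helper78.KD (tz tr disc tr_cont tr_mean tr_range disc_grid disc_bdd freq_finset dimH_finset freq_of_limsup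
  liminf_of_event tz_add_one tz_add_int)

/-- the statement of `upper_few` for one ratio -/
def UpperFew (θ : ℝ) : Prop := ∀ A k : ℕ, 1 ≤ A → ∃ (k' : ℕ) (C δ₀ : ℝ), 0 < C ∧ 0 < δ₀ ∧ δ₀ ≤ 1 ∧
    ∀ δ : ℝ, 0 < δ → δ ≤ δ₀ → ∀ (H : ℕ) (c : ℤ → ℂ) (p : ℝ → ℝ), TC A δ H c p → ∀ D : ℕ, ((D : ℝ) + 1) ^ 2 * δ ≤ 1 →
    Few θ (k' * (H + 1)) k' D → ∀ t, 0 ≤ t → t ≤ A * δ → ∀ (s : ℕ → ℝ) (h : ℝ),
      dimH {x | ∃ᶠ N : ℕ in atTop, h * N ≤ Sm p θ s N x} ≤
        ENNReal.ofReal (1 - (t * h - lam p t - C * δ ^ k) / Real.log θ)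

/-- the statement of `lower_few` for one ratio -/
def LowerFew (θ : ℝ) : Prop := ∀ A k : ℕ, 1 ≤ A → ∃ (k' : ℕ) (C δ₀ : ℝ), 0 < C ∧ 0 < δ₀ ∧ δ₀ ≤ 1 ∧
    ∀ δ : ℝ, 0 < δ → δ ≤ δ₀ → ∀ (H : ℕ) (c : ℤ → ℂ) (p : ℝ → ℝ), TC A δ H c p →
    16 / (A : ℝ) ≤ ∫ t in (0 : ℝ)..1, (p t) ^ 2 → ∀ D : ℕ, ((D : ℝ) + 1) ^ 2 * δ ≤ 1 →
    Few θ (k' * (H + 1)) k' D → ∀ (s : ℕ → ℝ) (h : ℝ), δ ≤ h → h ≤ 2 * δ → ∀ R : ℝ,
      (∀ t, 0 ≤ t → t ≤ A * δ → t * h - lam p t ≤ R) → ∀ O : Set ℝ, IsOpen O → O.Nonempty →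
      ENNReal.ofReal (1 - (R + C * δ ^ k) / Real.log θ) ≤
        dimH {x | x ∈ O ∧ ∀ᶠ N : ℕ in atTop, h * N ≤ Sm p θ s N x}

/-- **Upper bound for the discrepancy.** -/
theorem disc_upper_fa {θ : ℝ} (hθ : 1 < θ) (hF : FewAll θ) (hup0 : UpperFew θ) (k : ℕ) :
    ∃ C δ₀ : ℝ, 0 < C ∧ 0 < δ₀ ∧ ∀ δ : ℝ, 0 < δ → δ ≤ δ₀ → ∀ s : ℕ → ℝ,
      dimH {x | δ ≤ limsup (fun N : ℕ => disc (fun n => x * θ ^ (n + 1) + s n) N) atTop} ≤
        ENNReal.ofReal (1 - (rateD δ - C * δ ^ k) / Real.log θ) := by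
  obtain ⟨A', hA'⟩ := Pool.Agent.Helper59.GP.tr_approx
  set A : ℕ := A' * (k + 1) + 6 with hA
  obtain ⟨k', C, δ₀, hC, hδ₀, hδ₀1, hup⟩ := hup0 A k (by omega)
  obtain ⟨δ₁, hδ₁, hFew⟩ := hF k' A
  refine ⟨C + 42, min (min δ₀ δ₁) (1 / 40), by positivity, by positivity, ?_⟩
  intro δ hδ0 hδ s
  have hδδ₀ : δ ≤ δ₀ := hδ.trans ((min_le_left _ _).trans (min_le_left _ _))
  have hδδ₁ : δ ≤ δ₁ := hδ.trans ((min_le_left _ _).trans (min_le_right _ _))
  have hδ40 : δ ≤ 1 / 40 := hδ.trans (min_le_right _ _)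
  have hδ1 : δ ≤ 1 := by linarith
  obtain ⟨q, τ, hq1, hq2, hτ0, hτ6, hkl, hsad⟩ := saddle hδ0 hδ40
  set η : ℝ := δ ^ (k + 1) with hη
  have hη0 : 0 < η := by positivity
  have hηδ : η ≤ δ := pow_le_of_le_one hδ0.le hδ1 (by omega)
  have hη2 : η ≤ 1 / 2 := by linarith
  have hη1 : η ≤ 1 := by linarith
  obtain ⟨F, hF⟩ := disc_grid hη0 hη1
  choose Hz cz pz hTC hpz using fun z : ℝ × ℝ => hA' η hη0 hη2 z.1 z.2
  have hlb : 0 < Real.log θ := Real.log_pos hθ
  have hAτ : τ ≤ A * δ := by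
    have : (6 : ℝ) ≤ A := by exact_mod_cast (by omega : 6 ≤ A)
    nlinarith
  -- the test functions
  set Φ : (ℝ × ℝ) × Bool → ℝ → ℝ := fun w t => if w.2 then pz w.1 t else -pz w.1 t with hΦ
  set Ψ : (ℝ × ℝ) × Bool → ℝ → ℝ := fun w t => if w.2 then tr η w.1.1 w.1.2 t else -tr η w.1.1 w.1.2 t with hΨ
  have hΦΨ : ∀ w t, |Φ w t - Ψ w t| ≤ η := by
    intro w t
    rcases w with ⟨z, b⟩
    cases b
    · simp only [hΦ, hΨ, Bool.false_eq_true, if_false]
      rw [neg_sub_neg, abs_sub_comm]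
      exact hpz z t
    · simp only [hΦ, hΨ, if_true]
      exact hpz z t
  refine dimH_finset (F ×ˢ Finset.univ) (fun w => {x | ∃ᶠ N : ℕ in atTop, (δ - 6 * η) * N ≤ Sm (Φ w) θ s N x})
    _ _ ?_ ?_
  · intro x hx
    have h1 := freq_of_limsup (δ' := δ - η) (fun N => disc_bdd (fun n => x * θ ^ (n + 1) + s n) N) hx (by linarith)
    have h2 : ∃ᶠ N : ℕ in atTop, ∃ w ∈ F ×ˢ (Finset.univ : Finset Bool), (δ - 6 * η) * N ≤ Sm (Φ w) θ s N x := by
      refine (h1.and_eventually (eventually_ge_atTop 1)).mono ?_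
      rintro N ⟨hN, hN1⟩
      have h3 : ∃ w ∈ F ×ˢ (Finset.univ : Finset Bool), (δ - 5 * η) * N ≤ Sm (Ψ w) θ s N x := by
        obtain ⟨z, hz, hzz⟩ := hF (fun n => x * θ ^ (n + 1) + s n) N (δ - η) hN1 hN
        rw [show δ - η - 4 * η = δ - 5 * η by ring] at hzz
        rcases hzz with hzz | hzz
        · exact ⟨(z, true), by simp [hz], by simpa [hΨ, Sm] using hzz⟩
        · exact ⟨(z, false), by simp [hz], by simpa [hΨ, Sm] using hzz⟩
      obtain ⟨w, hw, h4⟩ := h3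
      refine ⟨w, hw, ?_⟩
      have h5 : Sm (Ψ w) θ s N x - Sm (Φ w) θ s N x ≤ N * η := by
        unfold Sm
        rw [← sum_sub_distrib]
        refine (sum_le_sum (g := fun _ => η) fun n _ => ?_).trans (le_of_eq ?_)
        · have := (abs_le.1 (hΦΨ w (x * θ ^ (n + 1) + s n))).1
          linarith
        · rw [sum_const, card_range, nsmul_eq_mul]
      have h6 : (δ - 6 * η) * N = (δ - 5 * η) * N - N * η := by ring
      rw [h6]
      linarith
    obtain ⟨w, hw, hfr⟩ := freq_finset _ _ h2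
    exact ⟨w, hw, hfr⟩
  · intro w _
    have hTCw : ∃ (c : ℤ → ℂ), TC A δ (Hz w.1) c (Φ w) := by
      rcases w with ⟨z, b⟩
      have h1 := (hTC z).scale hη hδ0 hδ1 (B := A) (by omega)
      cases b
      · exact ⟨_, by simpa [hΦ] using h1.neg⟩
      · exact ⟨_, by simpa [hΦ] using h1⟩
    obtain ⟨c, hc⟩ := hTCw
    obtain ⟨D, hD1, hD2⟩ := hFew δ hδ0 hδδ₁ _ hc.deg
    refine (hup δ hδ0 hδδ₀ _ c (Φ w) hc D hD1 hD2 τ hτ0.le hAτ s (δ - 6 * η)).trans
      (ENNReal.ofReal_le_ofReal ?_)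
    have hΨc : Continuous (Ψ w) := by
      rcases w with ⟨z, b⟩
      cases b
      · have h1 : Ψ (z, false) = fun t => -tr η z.1 z.2 t := by
          funext t
          simp [hΨ]
        rw [h1]
        exact (tr_cont hη0 hη1 z.1 z.2).neg
      · simpa [hΨ] using tr_cont hη0 hη1 z.1 z.2
    have hlam1 : lam (Φ w) τ ≤ lam (Ψ w) τ + τ * η :=
      lam_mono hc.cont hΨc (fun t => by have := (abs_le.1 (hΦΨ w t)).2; linarith) hτ0.le
    have hlam2 : lam (Ψ w) τ ≤ τ * δ - rateD δ := by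
      have hf0 := Int.fract_nonneg w.1.1
      have hf1 := (Int.fract_lt_one w.1.1).le
      have hfr : Int.fract w.1.1 = w.1.1 - ⌊w.1.1⌋ := rfl
      have hmean : ∫ t in (0 : ℝ)..1, tr η w.1.1 w.1.2 t = 0 := tr_mean hη0 hη1 _ _
      rcases w with ⟨z, b⟩
      cases b
      · have h2 := lam_le_of_range (φ := Ψ (z, false)) hΨc (by
          simp only [hΨ, Bool.false_eq_true, if_false]
          rw [intervalIntegral.integral_neg, hmean, neg_zero]) (q := 1 - Int.fract z.1) (by simp only at hf1; linarith)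
          (by simp only at hf0; linarith) (fun t => by
            have := tr_range hη0 z.1 z.2 t
            simp only at hfr
            simp only [hΨ, Bool.false_eq_true, if_false]
            rw [hfr]
            constructor <;> linarith [this.1, this.2]) τ
        refine h2.trans (hsad _ ?_ ?_)
        · simp only at hf1; linarith
        · simp only at hf0; linarith
      · have h2 := lam_le_of_range (φ := Ψ (z, true)) hΨc (by
          simp only [hΨ, if_true]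
          exact hmean) (q := Int.fract z.1) hf0 hf1 (fun t => by
            have := tr_range hη0 z.1 z.2 t
            simp only at hfr
            simp only [hΨ, if_true]
            rw [hfr]
            constructor <;> linarith [this.1, this.2]) τ
        exact h2.trans (hsad _ hf0 hf1)
    have h3 : τ * η ≤ 6 * δ ^ k := by
      have h4 : η ≤ δ ^ k := pow_le_pow_of_le_one hδ0.le hδ1 (by omega)
      have h5 : τ ≤ 6 := by linarith
      exact mul_le_mul h5 h4 hη0.le (by norm_num)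
    have h4 : (rateD δ - (C + 42) * δ ^ k) / Real.log θ ≤ (τ * (δ - 6 * η) - lam (Φ w) τ - C * δ ^ k) / Real.log θ := by
      refine div_le_div_of_nonneg_right ?_ hlb.le
      nlinarith
    linarith

/-- **Lower bound for the discrepancy.** -/
theorem disc_lower_fa {θ : ℝ} (hθ : 1 < θ) (hF : FewAll θ) (hlow0 : LowerFew θ) (k : ℕ) :
    ∃ C δ₀ : ℝ, 0 < C ∧ 0 < δ₀ ∧ ∀ δ : ℝ, 0 < δ → δ ≤ δ₀ → ∀ s : ℕ → ℝ, ∀ O : Set ℝ, IsOpen O → O.Nonempty →
      ENNReal.ofReal (1 - (rateD δ + C * δ ^ k) / Real.log θ) ≤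
        dimH {x | x ∈ O ∧ δ ≤ liminf (fun N : ℕ => disc (fun n => x * θ ^ (n + 1) + s n) N) atTop} := by
  obtain ⟨A', hA'⟩ := Pool.Agent.Helper59.GP.tr_approx
  obtain ⟨A, hA⟩ : ∃ A : ℕ, A = A' * (k + 1 + 1) + 128 := ⟨_, rfl⟩
  have hAr : (128 : ℝ) ≤ A := by exact_mod_cast (by omega : 128 ≤ A)
  obtain ⟨k', C, δ₀, hC, hδ₀, hδ₀1, hlow⟩ := hlow0 A k (by omega)
  obtain ⟨δ₁, hδ₁, hFew⟩ := hF k' A
  refine ⟨C + 12, min (min δ₀ δ₁) (1 / A), by positivity, by positivity, ?_⟩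
  intro δ hδ0 hδ s O hO hne
  have hδδ₀ : δ ≤ δ₀ := hδ.trans ((min_le_left _ _).trans (min_le_left _ _))
  have hδδ₁ : δ ≤ δ₁ := hδ.trans ((min_le_left _ _).trans (min_le_right _ _))
  have hδA : A * δ ≤ 1 := by
    have := hδ.trans (min_le_right _ _)
    rwa [le_div_iff₀ (by positivity), mul_comm] at this
  have hδ40 : δ ≤ 1 / 128 := by
    rw [le_div_iff₀ (by norm_num)]
    nlinarith
  have hδ1 : δ ≤ 1 := by linarith
  obtain ⟨q, τ₀, hq1, hq2, -, -, hkl, -⟩ := saddle hδ0 (by linarith : δ ≤ 1 / 40)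
  set η : ℝ := δ ^ (k + 1 + 1) with hη
  have hη0 : 0 < η := by positivity
  have hηδ : 128 * η ≤ δ := by
    have h1 : δ ^ (k + 1 + 1) ≤ δ ^ 2 := pow_le_pow_of_le_one hδ0.le hδ1 (by omega)
    nlinarith
  have hη2 : η ≤ 1 / 2 := by linarith
  have hη1 : η ≤ 1 := by linarith
  obtain ⟨H, c, p, hTC, hp⟩ := hA' η hη0 hη2 q (-q)
  have hTC' : TC A δ H c p := hTC.scale (k := k + 1) (by rw [hη]) hδ0 hδ1 (by omega)
  have hlb : 0 < Real.log θ := Real.log_pos hθ
  have htc := tr_cont hη0 hη1 q (-q)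
  have hpc := hTC'.cont
  have hfl : ⌊q⌋ = 0 := by
    rw [Int.floor_eq_iff]
    constructor <;> push_cast <;> linarith
  have hrange : ∀ t, -q ≤ tr η q (-q) t ∧ tr η q (-q) t ≤ 1 - q := fun t => by
    have := tr_range hη0 q (-q) t
    rw [hfl] at this
    push_cast at this
    constructor <;> linarith [this.1, this.2]
  -- variance
  have hvar : 16 / (A : ℝ) ≤ ∫ t in (0 : ℝ)..1, (p t) ^ 2 := by
    have h1 := tr_int_ge hη0 (by linarith) (by linarith) (f := fun x => x ^ 2) (q := q) (continuous_pow 2) fun x => sq_nonneg x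
    have h2 : (∫ t in (0 : ℝ)..1, (tr η q (-q) t) ^ 2) - 3 * η ≤ ∫ t in (0 : ℝ)..1, (p t) ^ 2 := by
      have h3 : (∫ t in (0 : ℝ)..1, (tr η q (-q) t) ^ 2) - 3 * η = ∫ t in (0 : ℝ)..1, ((tr η q (-q) t) ^ 2 - 3 * η) := by
        have hcc : Continuous fun t : ℝ => (tr η q (-q) t) ^ 2 := htc.pow 2
        rw [intervalIntegral.integral_sub (hcc.intervalIntegrable _ _) ((continuous_const).intervalIntegrable _ _)]
        simp
      rw [h3]
      refine intervalIntegral.integral_mono_on (by norm_num) (((htc.pow 2).sub continuous_const).intervalIntegrable _ _)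
        ((hpc.pow 2).intervalIntegrable _ _) fun t _ => ?_
      have h4 := abs_le.1 (hp t)
      have h5 := hrange t
      have h6 : (tr η q (-q) t) ^ 2 - (p t) ^ 2 = (tr η q (-q) t - p t) * (2 * tr η q (-q) t - (tr η q (-q) t - p t)) := by ring
      have h7 : |(tr η q (-q) t - p t) * (2 * tr η q (-q) t - (tr η q (-q) t - p t))| ≤ η * 3 := by
        rw [abs_mul]
        refine mul_le_mul (by rw [abs_sub_comm]; exact hp t) ?_ (abs_nonneg _) hη0.le
        rw [abs_le]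
        constructor <;> linarith [h4.1, h4.2, h5.1, h5.2]
      have h8 := (abs_le.1 h7).2
      linarith
    have h9 : 16 / (A : ℝ) ≤ 1 / 8 := by
      rw [div_le_div_iff₀ (by linarith) (by norm_num)]
      linarith
    have h10 : 3 / 16 - η ≤ (q - η) * (1 - q) ^ 2 + (1 - q - η) * (-q) ^ 2 := by
      have h11 : (q - η) * (1 - q) ^ 2 + (1 - q - η) * (-q) ^ 2 = q * (1 - q) - η * ((1 - q) ^ 2 + q ^ 2) := by ring
      rw [h11]
      have h12 : 3 / 16 ≤ q * (1 - q) := by nlinarith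
      have h13 : (1 - q) ^ 2 + q ^ 2 ≤ 1 := by nlinarith
      nlinarith
    linarith
  -- the cumulant
  have hR : ∀ τ, 0 ≤ τ → τ ≤ A * δ → τ * (δ + 3 * η) - lam p τ ≤ rateD δ + 12 * η := by
    intro τ hτ0 hτ1
    have hτ1' : τ ≤ 1 := hτ1.trans hδA
    have h1 : lam (tr η q (-q)) τ ≤ lam p τ + τ * η :=
      lam_mono htc hpc (fun t => by have := (abs_le.1 (hp t)).1; linarith) hτ0
    have hE1 : 1 ≤ Real.exp τ := Real.one_le_exp hτ0
    have hE3 : Real.exp τ ≤ 3 := by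
      have h2 : Real.exp τ ≤ Real.exp 1 := Real.exp_le_exp.2 hτ1'
      have h3 := Real.exp_one_lt_d9
      linarith
    have h2 := tr_int_ge hη0 (by linarith) (by linarith) (f := fun x => Real.exp (τ * x)) (q := q)
      (Real.continuous_exp.comp (continuous_const.mul continuous_id)) fun x => (Real.exp_pos _).le
    set X : ℝ := 1 + q * (Real.exp τ - 1) with hX
    have hX1 : 1 ≤ X := by
      have : 0 ≤ q * (Real.exp τ - 1) := mul_nonneg (by linarith) (by linarith)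
      linarith
    have h3 : Real.exp (-(τ * q)) * (X * (1 - 4 * η)) ≤ ∫ t in (0 : ℝ)..1, Real.exp (τ * tr η q (-q) t) := by
      refine le_trans ?_ h2
      have h4 : Real.exp (τ * (1 - q)) = Real.exp (-(τ * q)) * Real.exp τ := by
        rw [← Real.exp_add]
        congr 1
        ring
      have h5 : Real.exp (τ * -q) = Real.exp (-(τ * q)) := by
        congr 1
        ring
      rw [h4, h5]
      have h6 : (q - η) * (Real.exp (-(τ * q)) * Real.exp τ) + (1 - q - η) * Real.exp (-(τ * q)) =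
          Real.exp (-(τ * q)) * (X - η * (Real.exp τ + 1)) := by
        rw [hX]
        ring
      rw [h6]
      refine mul_le_mul_of_nonneg_left ?_ (Real.exp_pos _).le
      nlinarith
    have h4 : -(τ * q) + Real.log X - 8 * η ≤ lam (tr η q (-q)) τ := by
      have h5 : Real.log (Real.exp (-(τ * q)) * (X * (1 - 4 * η))) ≤ lam (tr η q (-q)) τ :=
        Real.log_le_log (mul_pos (Real.exp_pos _) (mul_pos (by linarith) (by linarith))) h3
      rw [Real.log_mul (Real.exp_pos _).ne' (mul_pos (by linarith) (by linarith)).ne', Real.log_exp,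
        Real.log_mul (by linarith) (by linarith)] at h5
      have h6 : -(8 * η) ≤ Real.log (1 - 4 * η) := by
        have h7 := Real.one_sub_inv_le_log_of_pos (show 0 < 1 - 4 * η by linarith)
        have h8 : (1 - 4 * η)⁻¹ ≤ 1 + 8 * η := by
          rw [inv_le_iff_one_le_mul₀ (by linarith)]
          have h9 : 0 ≤ η * (1 - 8 * η) := mul_nonneg hη0.le (by linarith)
          have h10 : (1 + 8 * η) * (1 - 4 * η) = 1 + 4 * (η * (1 - 8 * η)) := by ring
          rw [h10]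
          linarith
        linarith
      linarith
    have h5 := kl_ge (p := q + δ) (q := q) (by linarith) (by linarith) (by linarith) (by linarith) τ
    rw [hkl, ← hX] at h5
    have h6 : τ * η ≤ η := mul_le_of_le_one_left hη0.le hτ1'
    have h7 : τ * (δ + 3 * η) = (q + δ) * τ - τ * q + 3 * (τ * η) := by ring
    rw [h7]
    linarith
  obtain ⟨D, hD1, hD2⟩ := hFew δ hδ0 hδδ₁ _ hTC'.deg
  have hmain := hlow δ hδ0 hδδ₀ H c p hTC' hvar D hD1 hD2 s (δ + 3 * η) (by linarith) (by linarith)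
    (rateD δ + 12 * η) hR O hO hne
  refine (ENNReal.ofReal_le_ofReal ?_).trans (hmain.trans (dimH_mono ?_))
  · have h1 : η ≤ δ ^ k := pow_le_pow_of_le_one hδ0.le hδ1 (by omega)
    have h2 : (rateD δ + 12 * η + C * δ ^ k) / Real.log θ ≤ (rateD δ + (C + 12) * δ ^ k) / Real.log θ := by
      refine div_le_div_of_nonneg_right ?_ hlb.le
      linarith
    linarith
  · rintro x ⟨hx, hev⟩
    refine ⟨hx, liminf_of_event (fun N => disc_bdd (fun n => x * θ ^ (n + 1) + s n) N) ?_⟩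
    filter_upwards [hev, eventually_ge_atTop 1] with N hN hN1
    have hNpos : (0 : ℝ) < N := by exact_mod_cast hN1
    have h1 := disc_ge_gen (q := q) hη0 (by linarith) (by linarith) (fun n => x * θ ^ (n + 1) + s n) hN1
    have h2 : Sm p θ s N x - N * η ≤ ∑ n ∈ range N, tr η q (-q) (x * θ ^ (n + 1) + s n) := by
      unfold Sm
      have h3 : (N : ℝ) * η = ∑ _n ∈ range N, η := by rw [sum_const, card_range, nsmul_eq_mul]
      rw [h3, ← sum_sub_distrib]
      refine sum_le_sum fun n _ => ?_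
      have := (abs_le.1 (hp (x * θ ^ (n + 1) + s n))).2
      linarith
    have h4 : (δ + 2 * η) * N ≤ ∑ n ∈ range N, tr η q (-q) (x * θ ^ (n + 1) + s n) := by
      have h6 : (δ + 2 * η) * N = (δ + 3 * η) * N - N * η := by ring
      rw [h6]
      linarith
    have h5 : δ + 2 * η ≤ (∑ n ∈ range N, tr η q (-q) (x * θ ^ (n + 1) + s n)) / N := by
      rwa [le_div_iff₀ hNpos]
    linarith

/-- **The discrepancy, all orders.** -/
theorem disc_fa_of {θ : ℝ} (hθ : 1 < θ) (hF : FewAll θ) (hup : UpperFew θ) (hlow : LowerFew θ) (k : ℕ) :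
    ∃ C δ₀ : ℝ, 0 < C ∧ 0 < δ₀ ∧ ∀ δ : ℝ, 0 < δ → δ ≤ δ₀ → ∀ s : ℕ → ℝ,
      (∀ O : Set ℝ, IsOpen O → O.Nonempty → ENNReal.ofReal (1 - (rateD δ + C * δ ^ k) / Real.log θ) ≤
        dimH {x | x ∈ O ∧ δ ≤ liminf (fun N : ℕ => Pool.Agent.Helper78.KD.disc (fun n => x * θ ^ (n + 1) + s n) N) atTop}) ∧
      dimH {x | δ ≤ limsup (fun N : ℕ => Pool.Agent.Helper78.KD.disc (fun n => x * θ ^ (n + 1) + s n) N) atTop} ≤
        ENNReal.ofReal (1 - (rateD δ - C * δ ^ k) / Real.log θ) := by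
  obtain ⟨C₁, δ₁, hC₁, hδ₁, h₁⟩ := disc_upper_fa hθ hF hup k
  obtain ⟨C₂, δ₂, hC₂, hδ₂, h₂⟩ := disc_lower_fa hθ hF hlow k
  have hlb : 0 < Real.log θ := Real.log_pos hθ
  refine ⟨max C₁ C₂, min δ₁ δ₂, lt_max_of_lt_left hC₁, lt_min hδ₁ hδ₂, fun δ h0 hδ s => ⟨fun O hO hne => ?_, ?_⟩⟩
  · refine (ENNReal.ofReal_le_ofReal ?_).trans (h₂ δ h0 (hδ.trans (min_le_right _ _)) s O hO hne)
    have h3 : C₂ * δ ^ k ≤ max C₁ C₂ * δ ^ k := mul_le_mul_of_nonneg_right (le_max_right _ _) (by positivity)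
    have := div_le_div_of_nonneg_right (show rateD δ + C₂ * δ ^ k ≤ rateD δ + max C₁ C₂ * δ ^ k by linarith) hlb.le
    linarith
  · refine (h₁ δ h0 (hδ.trans (min_le_left _ _)) s).trans (ENNReal.ofReal_le_ofReal ?_)
    have h3 : C₁ * δ ^ k ≤ max C₁ C₂ * δ ^ k := mul_le_mul_of_nonneg_right (le_max_left _ _) (by positivity)
    have := div_le_div_of_nonneg_right (show rateD δ - max C₁ C₂ * δ ^ k ≤ rateD δ - C₁ * δ ^ k by linarith) hlb.le
    linarith

end Pool.Agent.Helper89.KX
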